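import Pool.Agent.helper56.P2B.SpecP

/-!
# Project p2b: (MP_70a088_an): GRT: translations escape
-/

set_option autoImplicit false
set_option linter.all false

open Complex Metric Set Filter Topology MeasureTheory
open Pool.Agent.helper98.ILF
open WP (it)
open HY (UD T S hd UN RM)
open PM
open PL (TP LO PZ GJ INR PG DK ht tr DI CY SUBH hG hq BJ)
open P2 (SS FLS FL CLS FR TL)

noncomputable section

namespace P2B

theorem GRT_tr (b ζ : ℂ) : tr b ζ = ζ + b := rfl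

theorem GRT_ht (p ζ : ℂ) : ht p ζ = 2 * p - ζ := rfl

theorem GRT_trinv (b : ℂ) : (tr b)⁻¹ = tr (-b) := by
  rw [inv_eq_iff_mul_eq_one]
  ext ζ
  rw [Equiv.Perm.mul_apply, GRT_tr, GRT_tr]
  simp

theorem GRT_trmul (a b : ℂ) : tr a * tr b = tr (a + b) := by
  ext ζ
  rw [Equiv.Perm.mul_apply, GRT_tr, GRT_tr, GRT_tr]
  ring

/-- points near a point of the limit domain are in the domains -/
theorem GRT_ev (hCVA : CVA_stmt) {V : Ultrafilter ℕ} {Ω : ℕ → Set ℂ} {φ : ℕ → ℂ → ℂ} {χ : ℂ → ℂ}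
    (hcv : CV V Ω φ χ) (z : ℕ → ℂ) (z₀ : ℂ) (hz₀ : z₀ ∈ χ '' UD) (hz : Tendsto z V (𝓝 z₀)) :
    ∀ᶠ l in (V : Filter ℕ), z l ∈ Ω l := by
  obtain ⟨-, -, -, hopen, -, -, hK⟩ := hCVA V Ω φ χ hcv
  obtain ⟨r, hr, hr2⟩ := Metric.isOpen_iff.1 hopen z₀ hz₀
  have h1 : closedBall z₀ (r / 2) ⊆ χ '' UD :=
    (closedBall_subset_ball (by linarith)).trans hr2
  have h2 := hK _ h1 (isCompact_closedBall z₀ (r / 2))
  have h3 := hz.eventually (closedBall_mem_nhds z₀ (by linarith : 0 < r / 2))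
  filter_upwards [h2, h3] with l h4 h5
  exact h4 h5

/-- translations of the limit domain -/
theorem GRT_A (hCVA : CVA_stmt) (hCVI : CVI_stmt) {V : Ultrafilter ℕ} {Ω : ℕ → Set ℂ}
    {φ : ℕ → ℂ → ℂ} {χ : ℂ → ℂ} {G : ℕ → ℂ → ℂ} (hcv : CV V Ω φ χ) (e : ℕ → ℂ) (e₀ : ℂ)
    (he : ∀ᶠ l in (V : Filter ℕ), tr (e l) ∈ DK (Ω l) (G l)) (het : Tendsto e V (𝓝 e₀))
    (hz : ∃ z₁ ∈ χ '' UD, z₁ + e₀ ∈ χ '' UD) :
    (∀ ζ ∈ χ '' UD, ζ + e₀ ∈ χ '' UD) ∧ ∀ ζ ∈ χ '' UD, ζ - e₀ ∈ χ '' UD := by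
  obtain ⟨z₁, hz1, hz2⟩ := hz
  constructor
  · intro ζ hζ
    have h := hCVI V Ω φ χ hcv (fun _ => 1) e 1 e₀ tendsto_const_nhds het (by
      filter_upwards [he] with l hl ζ hζ
      have h1 := (hl.2.1 ζ).2 hζ
      rw [GRT_tr] at h1
      simpa using h1) ⟨z₁, hz1, by simpa using hz2⟩ ζ hζ
    simpa using h
  · intro ζ hζ
    have h := hCVI V Ω φ χ hcv (fun _ => 1) (fun l => -e l) 1 (-e₀) tendsto_const_nhds het.neg (by
      filter_upwards [he] with l hl ζ hζ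
      have hl' : (tr (e l))⁻¹ ∈ DK (Ω l) (G l) := Subgroup.inv_mem _ hl
      rw [GRT_trinv] at hl'
      have h1 := (hl'.2.1 ζ).2 hζ
      rw [GRT_tr] at h1
      simpa using h1) ⟨z₁ + e₀, hz2, by simpa using hz1⟩ ζ hζ
    rw [sub_eq_add_neg]
    simpa using h

/-- one step -/
theorem GRT_B (hCVA : CVA_stmt) (hCVI : CVI_stmt) {V : Ultrafilter ℕ} {Ω : ℕ → Set ℂ}
    {φ : ℕ → ℂ → ℂ} {χ : ℂ → ℂ} {G : ℕ → ℂ → ℂ} {c₁ : ℝ} {θ : ℕ → Equiv.Perm ℂ} {t : ℕ → ℝ}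
    {s : ℕ → ℂ} {t₀ : ℝ} {s₀ : ℂ} (hN : NS V Ω φ χ G c₁ θ t s t₀ s₀) (e : ℕ → ℂ) (e₀ : ℂ)
    (he : ∀ᶠ l in (V : Filter ℕ), tr (e l) ∈ DK (Ω l) (G l)) (het : Tendsto e V (𝓝 e₀))
    (hz : ∃ z₁ ∈ χ '' UD, z₁ + e₀ ∈ χ '' UD) :
    (∀ᶠ l in (V : Filter ℕ), tr (((t l : ℂ) - 1) * e l) ∈ DK (Ω l) (G l)) ∧
      ((t₀ : ℂ) - 1) * e₀ ∈ χ '' UD := by
  obtain ⟨h1, h2⟩ := GRT_A hCVA hCVI hN.cv e e₀ he het hz
  obtain ⟨-, -, -, -, h0, -, -⟩ := hCVA V Ω φ χ hN.cv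
  have ht1 := hN.t1
  have ht0 : (t₀ : ℂ) ≠ 0 := by
    have : (1 : ℝ) / 2 ≤ t₀ := by
      have := (abs_le.1 ht1).1
      linarith
    have h : t₀ ≠ 0 := by linarith
    exact_mod_cast h
  have h3 : (t₀ : ℂ) * e₀ ∈ χ '' UD := by
    have h4 : -s₀ / t₀ ∈ χ '' UD := by
      rw [← hN.inv]
      have : (t₀ : ℂ) * (-s₀ / t₀) + s₀ = 0 := by field_simp; ring
      rw [this]
      exact h0
    have h5 := (hN.inv _).2 (h1 _ h4)
    have h6 : (t₀ : ℂ) * (-s₀ / t₀ + e₀) + s₀ = t₀ * e₀ := by field_simp; ring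
    rwa [h6] at h5
  have htt : Tendsto (fun l => (t l : ℂ) * e l) V (𝓝 ((t₀ : ℂ) * e₀)) :=
    ((Complex.continuous_ofReal.tendsto t₀).comp hN.tl).mul het
  have h4 := GRT_ev hCVA hN.cv _ _ h3 htt
  refine ⟨?_, ?_⟩
  · filter_upwards [h4, he] with l hl hel
    have h5 : ∀ ζ, θ l (tr (e l) ((θ l)⁻¹ ζ)) = ζ + (t l : ℂ) * e l := by
      intro ζ
      have h6 : θ l ((θ l)⁻¹ ζ) = ζ := by simp
      rw [hN.th] at h6 ⊢
      rw [GRT_tr]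
      calc (t l : ℂ) * ((θ l)⁻¹ ζ + e l) + s l = ((t l : ℂ) * (θ l)⁻¹ ζ + s l) + t l * e l := by ring
        _ = _ := by rw [h6]
    have h6 := hN.nm l (tr (e l)) hel 0 (hN.pg l).z0 (by rw [h5, zero_add]; exact hl)
    have h7 : θ l * tr (e l) * (θ l)⁻¹ = tr ((t l : ℂ) * e l) := by
      ext ζ
      rw [Equiv.Perm.mul_apply, Equiv.Perm.mul_apply, h5, GRT_tr]
    rw [h7] at h6
    have h8 := Subgroup.mul_mem _ h6 (Subgroup.inv_mem _ hel)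
    rw [GRT_trinv, GRT_trmul] at h8
    have h9 : ((t l : ℂ) - 1) * e l = (t l : ℂ) * e l + -e l := by ring
    rw [h9]
    exact h8
  · have h5 := h2 _ h3
    have h6 : ((t₀ : ℂ) - 1) * e₀ = (t₀ : ℂ) * e₀ - e₀ := by ring
    rw [h6]
    exact h5

theorem GRT (hCVA : CVA_stmt) (hCVI : CVI_stmt) : GRT_stmt := by
  intro V Ω φ χ G c₁ θ t s t₀ s₀ hN e e₀ he het hz
  obtain ⟨-, -, -, -, h0, -, -⟩ := hCVA V Ω φ χ hN.cv
  have htC : Tendsto (fun l => (t l : ℂ)) V (𝓝 (t₀ : ℂ)) :=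
    (Complex.continuous_ofReal.tendsto t₀).comp hN.tl
  -- induction
  have hind : ∀ k : ℕ, (∀ᶠ l in (V : Filter ℕ), tr (((t l : ℂ) - 1) ^ k * e l) ∈ DK (Ω l) (G l)) ∧
      ∃ z₁ ∈ χ '' UD, z₁ + ((t₀ : ℂ) - 1) ^ k * e₀ ∈ χ '' UD := by
    intro k
    induction k with
    | zero =>
      simp only [pow_zero, one_mul]
      exact ⟨he, hz⟩
    | succ k ih =>
      have h1 : Tendsto (fun l => ((t l : ℂ) - 1) ^ k * e l) V (𝓝 (((t₀ : ℂ) - 1) ^ k * e₀)) :=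
        ((htC.sub tendsto_const_nhds).pow k).mul het
      obtain ⟨h2, h3⟩ := GRT_B hCVA hCVI hN _ _ ih.1 h1 ih.2
      refine ⟨?_, 0, h0, ?_⟩
      · filter_upwards [h2] with l hl
        have : ((t l : ℂ) - 1) ^ (k + 1) * e l = ((t l : ℂ) - 1) * (((t l : ℂ) - 1) ^ k * e l) := by
          ring
        rw [this]
        exact hl
      · have : (0 : ℂ) + ((t₀ : ℂ) - 1) ^ (k + 1) * e₀ =
            ((t₀ : ℂ) - 1) * (((t₀ : ℂ) - 1) ^ k * e₀) := by ring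
        rw [this]
        exact h3
  -- the power vanishes
  obtain ⟨k, hk⟩ : ∃ k : ℕ, ‖((t₀ : ℂ) - 1) ^ k * e₀‖ < c₁ := by
    have h1 : Tendsto (fun k : ℕ => ‖((t₀ : ℂ) - 1) ^ k * e₀‖) atTop (𝓝 0) := by
      have h2 : ∀ k : ℕ, ‖((t₀ : ℂ) - 1) ^ k * e₀‖ = |t₀ - 1| ^ k * ‖e₀‖ := by
        intro k
        have : ((t₀ : ℂ) - 1) = ((t₀ - 1 : ℝ) : ℂ) := by push_cast; rfl
        rw [norm_mul, norm_pow, this, Complex.norm_real, Real.norm_eq_abs]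
      simp_rw [h2]
      have h3 : Tendsto (fun k : ℕ => |t₀ - 1| ^ k) atTop (𝓝 0) :=
        tendsto_pow_atTop_nhds_zero_of_lt_one (abs_nonneg _) (by have := hN.t1; linarith)
      simpa using h3.mul_const ‖e₀‖
    exact (h1.eventually (gt_mem_nhds hN.c0)).exists
  have h1 : Tendsto (fun l => ((t l : ℂ) - 1) ^ k * e l) V (𝓝 (((t₀ : ℂ) - 1) ^ k * e₀)) :=
    ((htC.sub tendsto_const_nhds).pow k).mul het
  have h2 : ∀ᶠ l in (V : Filter ℕ), ((t l : ℂ) - 1) ^ k * e l = 0 := by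
    have h3 := h1.norm.eventually (gt_mem_nhds hk)
    filter_upwards [h3, (hind k).1] with l h4 h5
    by_contra h6
    exact absurd (hN.sh l _ h6 h5) (not_le.2 h4)
  by_contra hcon
  have h3 : ∀ᶠ l in (V : Filter ℕ), e l ≠ 0 := by
    have := (Ultrafilter.eventually_not (f := V) (p := fun l => e l = 0)).2 hcon
    exact this
  have h4 : ∀ᶠ l in (V : Filter ℕ), t l = 1 := by
    filter_upwards [h2, h3] with l h5 h6
    rcases mul_eq_zero.1 h5 with h7 | h7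
    · have h8 : (t l : ℂ) - 1 = 0 := by
        by_contra h9
        exact pow_ne_zero k h9 h7
      have h9 : (t l : ℂ) = 1 := by linear_combination h8
      exact_mod_cast h9
    · exact absurd h7 h6
  have ht0 : t₀ = 1 := by
    have h5 : Tendsto t V (𝓝 1) := by
      refine (tendsto_const_nhds (x := (1 : ℝ))).congr' ?_
      filter_upwards [h4] with l hl
      exact hl.symm
    exact tendsto_nhds_unique hN.tl h5
  have hinv : ∀ ζ : ℂ, ζ + s₀ ∈ χ '' UD ↔ ζ ∈ χ '' UD := by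
    intro ζ
    have := hN.inv ζ
    rw [ht0] at this
    simpa using this
  have hs0 : s₀ ≠ 0 := by
    have := hN.fix 0 h0
    simpa using this
  have hs1 : -s₀ ∈ χ '' UD := by
    rw [← hinv]
    simpa using h0
  have hs2 : -(2 * s₀) ∈ χ '' UD := by
    rw [← hinv]
    have : -(2 * s₀) + s₀ = -s₀ := by ring
    rw [this]
    exact hs1
  have hs3 : ∀ᶠ l in (V : Filter ℕ), -(2 * s l) ∈ Ω l :=
    GRT_ev hCVA hN.cv _ _ hs2 ((tendsto_const_nhds.mul hN.sl).neg)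
  have hs4 : ∀ᶠ l in (V : Filter ℕ), s l ≠ 0 := hN.sl.eventually_ne hs0
  obtain ⟨l, hl1, hl2, hl3, hl4, hl5⟩ := (he.and (h3.and (h4.and (hs3.and hs4)))).exists
  -- the type
  obtain ⟨p, hp⟩ : ∃ p : ℂ, ht p ∈ DK (Ω l) (G l) := by
    rcases hN.ty l with hb | ⟨p, hp, hb⟩ | ⟨p, hp, b, hb0, hb⟩
    · exfalso
      rw [hb, Subgroup.mem_bot] at hl1
      have := congrArg (fun σ : Equiv.Perm ℂ => σ 0) hl1
      simp only [GRT_tr, Equiv.Perm.coe_one, id_eq, zero_add] at this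
      exact hl2 this
    · exact ⟨p, (hb _).2 (Or.inr rfl)⟩
    · refine ⟨p, (hb _).2 ⟨0, Or.inr ?_⟩⟩
      simp
  have h5 : ∀ ζ, θ l (ht p ((θ l)⁻¹ ζ)) = 2 * (p + s l) - ζ := by
    intro ζ
    have h6 : θ l ((θ l)⁻¹ ζ) = ζ := by simp
    rw [hN.th, hl3] at h6 ⊢
    rw [GRT_ht]
    push_cast at h6 ⊢
    linear_combination (-1 : ℂ) * h6
  have h6 : θ l * ht p * (θ l)⁻¹ = ht (p + s l) := by
    ext ζ
    rw [Equiv.Perm.mul_apply, Equiv.Perm.mul_apply, h5, GRT_ht]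
  have h7 : θ l (ht p ((θ l)⁻¹ 0)) ∈ Ω l := by
    rw [h5]
    have h8 := (hp.2.1 (-(2 * s l))).2 hl4
    rw [GRT_ht] at h8
    have : 2 * (p + s l) - 0 = 2 * p - -(2 * s l) := by ring
    rw [this]
    exact h8
  have h8 := hN.nm l (ht p) hp 0 (hN.pg l).z0 h7
  rw [h6] at h8
  have h9 := Subgroup.mul_mem _ h8 hp
  have h10 : ht (p + s l) * ht p = tr (2 * s l) := by
    ext ζ
    rw [Equiv.Perm.mul_apply, GRT_ht, GRT_ht, GRT_tr]
    ring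
  rw [h10] at h9
  have h11 := hN.sh l (2 * s l) (mul_ne_zero two_ne_zero hl5) h9
  rw [norm_mul] at h11
  have h12 := hN.s1 l
  norm_num at h11
  linarith

end P2B
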