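import Pool.Agent.helper56.P2B.SpecP

/-!
# Project p2b: (MP_70a088_an): LTR: a short translation gives a large loss
-/

set_option autoImplicit false
set_option linter.all false

open Complex Metric Set Filter Topology MeasureTheory
open Pool.Agent.helper98.ILF
open WP (it)
open HY (UD T S hd UN RM)
open PM
open PL (TP LO PZ GJ INR PG DK ht tr DI CY SUBH hG hq BJ)
open P2 (SS FLS FL CLS FR TL)

noncomputable section

namespace P2B

theorem LTR_one (hTPM : PM.TPM_stmt) (hTSP : PM.TSP_stmt) (Ω : Set ℂ) (G : ℂ → ℂ) (hΩ : DD Ω)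
    (hG : DifferentiableOn ℂ G Ω) (hm : MapsTo G Ω UD) (z : ℂ) (hz : z ∈ Ω) :
    PL.hG Ω G z ≤ 1 := by
  have hid : RM UD 0 (fun z => z) := ⟨differentiableOn_id, fun u _ v _ h => h, by simp, rfl⟩
  obtain ⟨hDU, hU⟩ := hTPM UD 0 (fun z => z) hid
  obtain ⟨h1, -⟩ := hU (G z) (hm hz)
  have h2 : deriv (fun z : ℂ => z) (G z) = 1 := by simp
  rw [h2, norm_one, one_mul] at h1
  obtain ⟨h3, -⟩ := hTSP Ω UD G hΩ hDU hG hm z hz
  rw [h1] at h3
  have h4 : ‖G z‖ < 1 := by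
    have : G z ∈ UD := hm hz
    simpa [UD] using this
  have h5 : 0 < 1 - ‖G z‖ ^ 2 := by
    have := norm_nonneg (G z)
    nlinarith
  unfold PL.hG
  rw [div_le_one h5]
  exact h3

theorem LTR (hTPS : TPS_stmt) (hTPM : PM.TPM_stmt) (hTSP : PM.TSP_stmt) (hTKO : PM.TKO_stmt) :
    LTR_stmt := by
  obtain ⟨K, hK, hA, hB⟩ := hTKO
  obtain ⟨C, hC, hB⟩ := hB (1 / 2) (by norm_num) (by norm_num)
  refine ⟨K * C, one_le_mul_of_one_le_of_one_le hK hC, ?_⟩
  intro Ω G hΩ h0 hcr hG hm b hb hinv z hz hpd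
  obtain ⟨h1, -⟩ := hB Ω hΩ 0 h0
  obtain ⟨-, -, h2⟩ := h1 z hz hpd
  rw [hcr] at h2
  have hcz : 0 < cr Ω z := by
    by_contra h
    have h3 : C * cr Ω z ≤ 0 := mul_nonpos_of_nonneg_of_nonpos (by linarith) (not_lt.1 h)
    linarith
  have hK0 : 0 < K := by linarith
  have hC0 : 0 < C := by linarith
  obtain ⟨-, -, h3⟩ := hA Ω hΩ z hz
  by_cases hbz : ‖b‖ < cr Ω z / K
  · have h4 := h3 (z + b) (by simpa using hbz)
    obtain ⟨h5, h6⟩ := h4
    have h7 := hTPS Ω G hΩ hG hm z hz (z + b) h5 (by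
      intro h
      exact hb (by linear_combination (-1 : ℂ) * h)) (hinv z hz).2.symm
    refine h7.trans (h6.trans ?_)
    have h8 : z + b - z = b := by ring
    rw [h8, div_le_iff₀ hcz]
    have h9 : K * ‖b‖ * 1 ≤ K * ‖b‖ * (C * cr Ω z) :=
      mul_le_mul_of_nonneg_left h2 (by positivity)
    calc K * ‖b‖ = K * ‖b‖ * 1 := by ring
      _ ≤ _ := h9
      _ = _ := by ring
  · have h4 := not_lt.1 hbz
    rw [div_le_iff₀ hK0] at h4
    refine (LTR_one hTPM hTSP Ω G hΩ hG hm z hz).trans ?_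
    calc (1 : ℝ) ≤ C * cr Ω z := h2
      _ ≤ C * (‖b‖ * K) := mul_le_mul_of_nonneg_left h4 hC0.le
      _ = _ := by ring

end P2B
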